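import Pool.Agent.Q64.RL.Stm

/-! Project RL (helper64), row MP_0aec2a_ag, job BIR: the parametrisation is birational. -/

set_option autoImplicit false

open Finset MvPolynomial

namespace Pool.Agent.Q198.RL

open Pool.Agent.Q64.RL

/-- chain rule -/
lemma der_aeval {k ι E : Type} [Field k] [Fintype ι] [DecidableEq ι] [Field E] [Algebra k E]
    (D : Derivation k E E) (y : ι → E) (F : MvPolynomial ι k) :
    D (aeval y F) = ∑ i, aeval y (pderiv i F) * D (y i) := by
  induction F using MvPolynomial.induction_on with
  | C a => simp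
  | add p q hp hq => simp only [map_add, hp, hq, add_mul, Finset.sum_add_distrib]
  | mul_X p n hp =>
    rw [map_mul, aeval_X, D.leibniz, hp, smul_eq_mul, smul_eq_mul]
    have e : ∀ i, aeval y (pderiv i (p * X n)) * D (y i) =
        y n * (aeval y (pderiv i p) * D (y i)) +
        (if i = n then aeval y p * D (y i) else 0) := by
      intro i
      rw [pderiv_mul, map_add, map_mul, map_mul, aeval_X]
      by_cases h : i = n
      · subst h
        rw [pderiv_X_self]; simp; ring
      · rw [pderiv_X_of_ne (fun h' => h h'.symm)]; simp [h]; ring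
    rw [Finset.sum_congr rfl (fun i _ => e i), Finset.sum_add_distrib, ← Finset.mul_sum]
    simp [add_comm]

lemma pderiv_deg {k ι : Type} [Field k] [Fintype ι] [DecidableEq ι] (F : MvPolynomial ι k) (i : ι)
    (h : pderiv i F ≠ 0) : (pderiv i F).totalDegree < F.totalDegree := by
  obtain ⟨m, hm, he⟩ := Finset.exists_mem_eq_sup (pderiv i F).support
    (MvPolynomial.support_nonempty.mpr h) (fun m => m.sum fun _ e => e)
  have h1 : (pderiv i F).totalDegree = m.sum fun _ e => e := he
  rw [h1]
  have h2 : coeff m (pderiv i F) ≠ 0 := mem_support_iff.mp hm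
  rw [coeff_pderiv] at h2
  have h3 : m + Finsupp.single i 1 ∈ F.support := mem_support_iff.mpr (left_ne_zero_of_mul h2)
  have h4 := le_totalDegree h3
  have h5 : (m + Finsupp.single i 1).sum (fun _ e => e) = (m.sum fun _ e => e) + 1 := by
    rw [Finsupp.sum_add_index' (fun _ => rfl) (fun _ _ _ => rfl)]
    simp
  omega

lemma exists_pderiv {k ι : Type} [Field k] [CharZero k] [Fintype ι] [DecidableEq ι]
    (F : MvPolynomial ι k) (h : ∀ i, pderiv i F = 0) : F = C (coeff 0 F) := by
  ext m
  rw [coeff_C]
  split_ifs with h0
  · rw [← h0]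
  · obtain ⟨i, hi⟩ : ∃ i, m i ≠ 0 := by
      by_contra hc
      push Not at hc
      apply h0
      ext i; rw [hc i]; rfl
    have h1 := coeff_pderiv (i := i) F (m - Finsupp.single i 1)
    rw [h i, coeff_zero] at h1
    have h2 : m - Finsupp.single i 1 + Finsupp.single i 1 = m := by
      apply tsub_add_cancel_of_le
      rw [Finsupp.single_le_iff]; omega
    rw [h2] at h1
    have h3 := Nat.cast_add_one_ne_zero (R := k) ((m - Finsupp.single i (1:ℕ)) i)
    rcases mul_eq_zero.mp h1.symm with h4 | h4
    · exact h4
    · exact absurd h4 h3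

lemma exists_rel {k ι E : Type} [Field k] [CharZero k] [Fintype ι] [DecidableEq ι] [Field E]
    [Algebra k E] (y : ι → E) : ∀ (n : ℕ) (F : MvPolynomial ι k), F.totalDegree = n → F ≠ 0 →
      aeval y F = 0 → ∃ F' : MvPolynomial ι k, aeval y F' = 0 ∧ ∃ i, aeval y (pderiv i F') ≠ 0 := by
  intro n
  induction n using Nat.strong_induction_on with
  | _ n ih =>
    intro F hn hF h0
    by_cases h : ∃ i, aeval y (pderiv i F) ≠ 0
    · exact ⟨F, h0, h⟩
    · push Not at h
      by_cases h2 : ∀ i, pderiv i F = 0
      · exfalso
        have h3 := exists_pderiv F h2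
        rw [h3] at h0 hF
        simp only [algHom_C] at h0
        apply hF
        have := (algebraMap k E).injective (h0.trans (map_zero (algebraMap k E)).symm)
        rw [this, C_0]
      · push Not at h2
        obtain ⟨i, hi⟩ := h2
        exact ih _ (hn ▸ pderiv_deg F i hi) _ rfl hi (h i)

lemma not_loop {k ι E : Type} [Field k] [Fintype ι] [DecidableEq ι] [Field E] [Algebra k E]
    {L : Submodule k (ι → k)} {o : ι} {x w : ι → E} (h : Gen L o x w) : ∃ v ∈ L, v o ≠ 0 := by
  by_contra hc
  push Not at hc
  have := h.hx (Pi.single o 1) (by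
    intro v hv
    rw [Finset.sum_eq_single o]
    · rw [hc v hv, zero_mul]
    · intro i _ hi; rw [Pi.single_eq_of_ne hi, mul_zero]
    · simp)
  rw [Finset.sum_eq_single o] at this
  · rw [Pi.single_eq_same, map_one, one_mul, h.xo] at this
    exact one_ne_zero this
  · intro i _ hi; rw [Pi.single_eq_of_ne hi, map_zero, zero_mul]
  · simp

/-- a derivation that vanishes on a subfield over which `E` is finite is zero (characteristic
zero) -/
lemma der_zero {k E : Type} [Field k] [CharZero k] [Field E] [Algebra k E]
    (K : IntermediateField k E) [FiniteDimensional K E] (D : Derivation k E E)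
    (h : ∀ c ∈ K, D c = 0) (s : E) : D s = 0 := by
  let D' : Derivation K E E :=
    { toFun := D
      map_add' := D.map_add
      map_smul' := by
        intro c x
        have e : c • x = (c : E) * x := rfl
        rw [e, D.leibniz, h c c.2, smul_zero, add_zero, RingHom.id_apply]
        rfl
      map_one_eq_zero' := D.map_one_eq_zero
      leibniz' := D.leibniz }
  have h1 := D'.map_aeval (minpoly K s) s
  rw [minpoly.aeval, map_zero] at h1
  have : CharZero K := charZero_of_injective_algebraMap (algebraMap k K).injective
  have h2 : (minpoly K s).Separable := (minpoly.irreducible (Algebra.IsIntegral.isIntegral s)).separable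
  have h3 := h2.aeval_derivative_ne_zero (minpoly.aeval K s)
  rw [smul_eq_mul] at h1
  exact (mul_eq_zero.mp h1.symm).resolve_left h3

theorem bir (htrd : S_trd) (hbas : S_bas) (hzfa : S_zfa) (hder : S_der) : S_bir := by
  intro k ι E _ _ _ _ _ _ L o x w hG hgood hx
  obtain ⟨B, hB, hoB⟩ := (hbas k ι L o (not_loop hG)).1
  obtain ⟨hz1, hz2⟩ := hzfa k ι E L B o x w hB hoB hG
  set y : ι → E := fun i => x i ^ 2 * w i with hy
  -- finiteness
  have hfin : FiniteDimensional (IntermediateField.adjoin k
      (Set.range fun i : {i // i ≠ o} => x i ^ 2 * w i)) E :=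
    ((htrd k E _ _ _ _ hz2 hgood).2 rfl).2
  -- relation
  have hdep : ¬ AlgebraicIndependent k y := by
    intro hai
    have h1 := (htrd k E _ _ _ _ hz2 hai).1
    have h2 : Fintype.card {i // i ≠ o} < Fintype.card ι := Fintype.card_subtype_lt (x := o) (by simp)
    omega
  obtain ⟨F, hF0, hFy⟩ : ∃ F : MvPolynomial ι k, F ≠ 0 ∧ aeval y F = 0 := by
    by_contra hc
    push Not at hc
    apply hdep
    rw [algebraicIndependent_iff]
    intro p hp
    by_contra hp0
    exact hc p hp0 hp
  obtain ⟨F, hFy, i0, hi0⟩ := exists_rel y _ F rfl hF0 hFy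
  set g : ι → E := fun i => aeval y (pderiv i F) with hg
  have hD : ∀ D : Derivation k E E, ∑ i, g i * (2 * x i * w i * D (x i) + x i ^ 2 * D (w i)) = 0 := by
    intro D
    have h1 := der_aeval D y F
    rw [hFy, map_zero] at h1
    rw [h1]
    apply Finset.sum_congr rfl
    intro i _
    congr 1
    simp only [hy, D.leibniz, D.leibniz_pow, smul_eq_mul, nsmul_eq_mul]
    push_cast; ring
  have hInL0 : InL L (fun _ : ι => (0:E)) := fun a _ => by simp
  have hInP0 : InP L (fun _ : ι => (0:E)) := fun a _ => by simp
  -- (a)
  have ha : ∀ b : ι → E, InP L b → ∑ i, g i * (x i ^ 2 * b i) = 0 := by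
    intro b hb
    obtain ⟨D, h1, h2⟩ := hder k ι E L o x w hG (fun _ => 0) b hInL0 rfl hb
    have := hD D
    simp only [h1, h2, mul_zero, zero_add] at this
    exact this
  have h2ne : (2:E) ≠ 0 := by
    have : CharZero E := charZero_of_injective_algebraMap (algebraMap k E).injective
    exact two_ne_zero
  -- (b)
  have hb : ∀ a : ι → E, InL L a → a o = 0 → ∑ i, g i * (x i * w i * a i) = 0 := by
    intro a ha' hao
    obtain ⟨D, h1, h2⟩ := hder k ι E L o x w hG a (fun _ => 0) ha' hao hInP0
    have := hD D
    simp only [h1, h2, mul_zero, add_zero] at this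
    have e : ∑ i, g i * (2 * x i * w i * a i) = 2 * ∑ i, g i * (x i * w i * a i) := by
      rw [Finset.mul_sum]
      apply Finset.sum_congr rfl
      intro i _; ring
    rw [e] at this
    exact (mul_eq_zero.mp this).resolve_left h2ne
  set q : ι → E := fun i => g i * x i ^ 2 with hq
  have hqL : InL L q := by
    intro a ha'
    have h1 := ha (fun i => algebraMap k E (a i)) (by
      intro v hv
      have : ∑ i, algebraMap k E (v i) * algebraMap k E (a i) = algebraMap k E (∑ i, v i * a i) := by
        rw [map_sum]; simp
      rw [this, ha' v hv, map_zero])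
    rw [← h1]
    apply Finset.sum_congr rfl
    intro i _
    simp only [hq]; ring
  have hw0 : ∑ i, g i * (x i ^ 2 * w i) = 0 := ha w hG.hw
  have hgP : InP L (fun i => g i * x i * w i) := by
    intro u hu
    have h1 := hb (fun i => algebraMap k E (u i) - algebraMap k E (u o) * x i) (by
      intro a ha'
      have h2 := hG.hx a ha'
      have h3 : ∑ i, algebraMap k E (a i) * algebraMap k E (u i) = 0 := by
        have : ∑ i, algebraMap k E (a i) * algebraMap k E (u i) =
            algebraMap k E (∑ i, u i * a i) := by
          rw [map_sum]; apply Finset.sum_congr rfl; intro i _; rw [map_mul, mul_comm]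
        rw [this, ha' u hu, map_zero]
      have e : ∑ i, algebraMap k E (a i) * (algebraMap k E (u i) - algebraMap k E (u o) * x i) =
          ∑ i, algebraMap k E (a i) * algebraMap k E (u i) -
          algebraMap k E (u o) * ∑ i, algebraMap k E (a i) * x i := by
        rw [Finset.mul_sum, ← Finset.sum_sub_distrib]
        apply Finset.sum_congr rfl; intro i _; ring
      rw [e, h2, h3]; simp) (by simp [hG.xo])
    have e : ∑ i, g i * (x i * w i * (algebraMap k E (u i) - algebraMap k E (u o) * x i)) =
        ∑ i, algebraMap k E (u i) * (g i * x i * w i) -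
          algebraMap k E (u o) * ∑ i, g i * (x i ^ 2 * w i) := by
      rw [Finset.mul_sum, ← Finset.sum_sub_distrib]
      apply Finset.sum_congr rfl; intro i _; ring
    rw [e, hw0] at h1
    simpa using h1
  -- the derivation that kills all `y i`
  set a : ι → E := fun i => q i - q o * x i with haa
  set b : ι → E := fun i => - (2 * a i * w i / x i) with hbb
  have haL : InL L a := by
    intro c hc
    have h1 := hqL c hc
    have h2 := hG.hx c hc
    have e : ∑ i, algebraMap k E (c i) * a i =
        ∑ i, algebraMap k E (c i) * q i - q o * ∑ i, algebraMap k E (c i) * x i := by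
      rw [Finset.mul_sum, ← Finset.sum_sub_distrib]
      apply Finset.sum_congr rfl; intro i _; simp only [haa]; ring
    rw [e, h1, h2]; simp
  have hao : a o = 0 := by simp [haa, hG.xo]
  have hbP : InP L b := by
    intro v hv
    have h1 := hgP v hv
    have h2 := hG.hw v hv
    have e : ∑ i, algebraMap k E (v i) * b i =
        -(2 * (∑ i, algebraMap k E (v i) * (g i * x i * w i))) +
          2 * q o * ∑ i, algebraMap k E (v i) * w i := by
      rw [Finset.mul_sum, Finset.mul_sum, ← Finset.sum_neg_distrib, ← Finset.sum_add_distrib]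
      apply Finset.sum_congr rfl; intro i _
      simp only [hbb, haa, hq]
      have := hx i
      field_simp
      ring
    rw [e, h1, h2]; simp
  obtain ⟨D, hDx, hDw⟩ := hder k ι E L o x w hG a b haL hao hbP
  have hDy : ∀ i, D (y i) = 0 := by
    intro i
    have : D (y i) = 2 * x i * w i * D (x i) + x i ^ 2 * D (w i) := by
      simp only [hy, D.leibniz, D.leibniz_pow, smul_eq_mul, nsmul_eq_mul]
      push_cast; ring
    rw [this, hDx, hDw]
    simp only [hbb]
    have := hx i
    field_simp
    ring
  have hDK : ∀ c ∈ IntermediateField.adjoin k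
      (Set.range fun i : {i // i ≠ o} => x i ^ 2 * w i), D c = 0 := by
    intro c hc
    induction hc using IntermediateField.adjoin_induction with
    | mem z hz =>
      obtain ⟨i, rfl⟩ := hz
      exact hDy i
    | algebraMap z => exact D.map_algebraMap z
    | add u v _ _ hu hv => rw [map_add, hu, hv, add_zero]
    | inv u _ hu => rw [D.leibniz_inv, hu]; simp
    | mul u v _ _ hu hv => rw [D.leibniz, hu, hv]; simp
  have hD0 : ∀ s, D s = 0 := der_zero _ D hDK
  have hgx : ∀ i, g i * x i = q o := by
    intro i
    have h1 : a i = 0 := by rw [← hDx i]; exact hD0 _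
    simp only [haa, hq] at h1
    have := hx i
    have h2 : x i * (g i * x i - q o) = 0 := by
      simp only [hq]; linear_combination h1
    exact sub_eq_zero.mp ((mul_eq_zero.mp h2).resolve_left this)
  have hqo : q o ≠ 0 := by
    intro h0
    have h1 := hgx i0
    rw [h0] at h1
    rcases mul_eq_zero.mp h1 with h2 | h2
    · exact hi0 h2
    · exact hx i0 h2
  have hgne : ∀ i, g i ≠ 0 := by
    intro i h0
    apply hqo
    rw [← hgx i, h0, zero_mul]
  set M := IntermediateField.adjoin k (Set.range y) with hM
  have hyM : ∀ i, y i ∈ M := fun i => IntermediateField.subset_adjoin _ _ ⟨i, rfl⟩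
  have hgM : ∀ i, g i ∈ M := by
    intro i
    have : ∀ P : MvPolynomial ι k, aeval y P ∈ M := by
      intro P
      induction P using MvPolynomial.induction_on with
      | C a => rw [algHom_C]; exact M.algebraMap_mem a
      | add p q hp hq => rw [map_add]; exact M.add_mem hp hq
      | mul_X p n hp => rw [map_mul, aeval_X]; exact M.mul_mem hp (hyM n)
    exact this _
  have hxM : ∀ i, x i ∈ M := by
    intro i
    have h1 := hgx i
    have h2 : g o = q o := by rw [← hgx o, hG.xo, mul_one]
    have h3 : x i = g o / g i := by
      rw [eq_div_iff (hgne i), h2, ← h1]; ring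
    rw [h3]
    exact M.div_mem (hgM o) (hgM i)
  have hwM : ∀ i, w i ∈ M := by
    intro i
    have h3 : w i = y i / x i ^ 2 := by
      rw [eq_div_iff (pow_ne_zero 2 (hx i))]; simp only [hy]; ring
    rw [h3]
    exact M.div_mem (hyM i) (_root_.pow_mem (hxM i) 2)
  rw [eq_top_iff, ← hG.gen, IntermediateField.adjoin_le_iff]
  rintro _ (⟨i, rfl⟩ | ⟨i, rfl⟩)
  · exact hxM i
  · exact hwM i

end Pool.Agent.Q198.RL
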