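import Pool.Agent.Q198.RL.Bir

/-! Project RL (helper64), row MP_0aec2a_ag, job FEQ: the equation. -/

set_option autoImplicit false

open Finset MvPolynomial

namespace Pool.Agent.Q198.RL

open Pool.Agent.Q64.RL

/-- integrality by places -/
lemma int_of_places {k E : Type} [Field k] [Field E] [Algebra k E] (S : Set E) (s : E)
    (h : ∀ (Γ : Type) [LinearOrderedCommGroupWithZero Γ] (v : Valuation E Γ), Triv k v →
      (∀ a ∈ S, v a ≤ 1) → v s ≤ 1) : IsIntegral (Algebra.adjoin k S) s := by
  have h1 : s ∈ (integralClosure (Subring.closure (Algebra.adjoin k S : Set E)) E).toSubring := by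
    rw [← iInf_valuationSubring_superset]
    rw [Subring.mem_iInf]
    rintro ⟨V, hV⟩
    have hV' : ∀ a ∈ Algebra.adjoin k S, a ∈ V := fun a ha => hV ha
    show s ∈ V
    rw [← ValuationSubring.valuation_le_one_iff]
    apply h
    · intro c hc
      have a1 : V.valuation (algebraMap k E c) ≤ 1 := by
        rw [ValuationSubring.valuation_le_one_iff]
        exact hV' _ (Subalgebra.algebraMap_mem _ c)
      have a2 : V.valuation (algebraMap k E c⁻¹) ≤ 1 := by
        rw [ValuationSubring.valuation_le_one_iff]
        exact hV' _ (Subalgebra.algebraMap_mem _ c⁻¹)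
      have a3 : V.valuation (algebraMap k E c) * V.valuation (algebraMap k E c⁻¹) = 1 := by
        rw [← map_mul, ← map_mul, mul_inv_cancel₀ hc, map_one, map_one]
      apply le_antisymm a1
      rw [← a3]
      exact mul_le_of_le_one_right' a2
    · intro a ha
      rw [ValuationSubring.valuation_le_one_iff]
      exact hV' _ (Algebra.subset_adjoin ha)
  have h2 : IsIntegral (Subring.closure (Algebra.adjoin k S : Set E)) s := h1
  have hle : Subring.closure (Algebra.adjoin k S : Set E) ≤ (Algebra.adjoin k S).toSubring := by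
    rw [Subring.closure_le]; exact fun a ha => ha
  exact h2.map_of_comp_eq (Subring.inclusion hle) (RingHom.id E) rfl

section deg

open scoped IntermediateField.algebraAdjoinAdjoin

/-- the degree of the minimal polynomial -/
lemma fin_deg {k E : Type} [Field k] [Field E] [Algebra k E] (S : Set E) (s : E)
    [IsIntegrallyClosed (Algebra.adjoin k S)] (hs : IsIntegral (Algebra.adjoin k S) s)
    (hT : IntermediateField.adjoin k (insert s S) = ⊤) :
    Module.finrank (IntermediateField.adjoin k S) E =
      (minpoly (Algebra.adjoin k S) s).natDegree := by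
  have h1 : minpoly (IntermediateField.adjoin k S) s =
      (minpoly (Algebra.adjoin k S) s).map
        (algebraMap (Algebra.adjoin k S) (IntermediateField.adjoin k S)) :=
    minpoly.isIntegrallyClosed_eq_field_fractions' (IntermediateField.adjoin k S) hs
  have h2 : (minpoly (IntermediateField.adjoin k S) s).natDegree =
      (minpoly (Algebra.adjoin k S) s).natDegree := by
    rw [h1]; exact (minpoly.monic hs).natDegree_map _
  have hs' : IsIntegral (IntermediateField.adjoin k S) s := hs.tower_top
  have h3 := IntermediateField.adjoin.finrank hs'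
  have h4 : IntermediateField.adjoin (IntermediateField.adjoin k S) {s} = ⊤ := by
    have h5 := IntermediateField.adjoin_adjoin_left (F := k) (S := S) (T := {s})
    rw [Set.union_singleton, hT] at h5
    apply IntermediateField.restrictScalars_injective k
    rw [h5, IntermediateField.restrictScalars_top]
  rw [h4, IntermediateField.finrank_top'] at h3
  rw [h3, h2]

end deg

section equiv

variable {k ι E : Type} [Field k] [DecidableEq ι] [Field E] [Algebra k E]

/-- polynomials in all variables are polynomials in the variable `o` over the algebra generated by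
the other coordinates -/
noncomputable def eqv (o : ι) (y : ι → E)
    (hai : AlgebraicIndependent k (fun i : {i // i ≠ o} => y i)) :
    MvPolynomial ι k ≃ₐ[k]
      Polynomial (Algebra.adjoin k (Set.range (fun i : {i // i ≠ o} => y i))) :=
  (renameEquiv k (Equiv.optionSubtypeNe o).symm).trans
    ((optionEquivLeft k {i // i ≠ o}).trans (Polynomial.mapAlgEquiv hai.aevalEquiv))

lemma aeval_eqv (o : ι) (y : ι → E)
    (hai : AlgebraicIndependent k (fun i : {i // i ≠ o} => y i)) (G : MvPolynomial ι k) :
    Polynomial.aeval (y o) (eqv o y hai G) = aeval y G := by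
  have e : ((Polynomial.aeval (y o) : Polynomial (Algebra.adjoin k
      (Set.range (fun i : {i // i ≠ o} => y i))) →ₐ[_] E).restrictScalars k).comp
      (eqv o y hai).toAlgHom = aeval y := by
    apply MvPolynomial.algHom_ext
    intro i
    simp only [AlgHom.comp_apply, aeval_X, AlgHom.restrictScalars_apply]
    show Polynomial.aeval (y o) (eqv o y hai (X i)) = y i
    by_cases hi : i = o
    · subst hi
      have : eqv i y hai (X i) = Polynomial.X := by
        unfold eqv
        simp only [AlgEquiv.trans_apply, renameEquiv_apply, rename_X]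
        rw [Equiv.optionSubtypeNe_symm_self, optionEquivLeft_X_none]
        simp
      rw [this, Polynomial.aeval_X]
    · have : eqv o y hai (X i) = Polynomial.C (hai.aevalEquiv (X ⟨i, hi⟩)) := by
        unfold eqv
        simp only [AlgEquiv.trans_apply, renameEquiv_apply, rename_X]
        rw [Equiv.optionSubtypeNe_symm_of_ne hi, optionEquivLeft_X_some]
        simp
      rw [this, Polynomial.aeval_C, hai.algebraMap_aevalEquiv, aeval_X]
  rw [← e]
  rfl

lemma coeff_eqv (o : ι) (y : ι → E)
    (hai : AlgebraicIndependent k (fun i : {i // i ≠ o} => y i)) (G : MvPolynomial ι k) (N : ℕ)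
    (h : (eqv o y hai G).coeff N = 1) : coeff (Finsupp.single o N) G = 1 := by
  set f := renameEquiv k (Equiv.optionSubtypeNe o).symm G with hf
  have h1 : (optionEquivLeft k {i // i ≠ o} f).coeff N = 1 := by
    have e : (eqv o y hai G).coeff N = hai.aevalEquiv ((optionEquivLeft k {i // i ≠ o} f).coeff N) := by
      unfold eqv
      simp only [AlgEquiv.trans_apply, ← hf]
      exact Polynomial.coeff_map _ _
    rw [e] at h
    exact (map_eq_one_iff _ hai.aevalEquiv.injective).mp h
  have h2 := optionEquivLeft_coeff_some_coeff_none k {i // i ≠ o} (Finsupp.single none N) f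
  have h3 : (Finsupp.single none N : Option {i // i ≠ o} →₀ ℕ) none = N := by simp
  have h4 : (Finsupp.single none N : Option {i // i ≠ o} →₀ ℕ).some = 0 := by
    ext i; simp
  rw [h3, h4, h1] at h2
  have h5 : coeff (Finsupp.mapDomain (Equiv.optionSubtypeNe o).symm (Finsupp.single o N)) f =
      coeff (Finsupp.single o N) G := by
    rw [hf]
    exact coeff_rename_mapDomain _ (Equiv.injective _) _ _
  rw [← h5, Finsupp.mapDomain_single, Equiv.optionSubtypeNe_symm_self, ← h2]
  simp

end equiv

/-- coefficients of a homogenised substitution -/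
lemma coeff_aeval_scale {k ι R : Type} [Field k] [CommRing R] [Algebra k R] (Y : ι → R)
    (G : MvPolynomial ι k) (d : ℕ) :
    (aeval (fun i => Polynomial.C (Y i) * Polynomial.X) G : Polynomial R).coeff d =
      aeval Y (homogeneousComponent d G) := by
  induction G using MvPolynomial.induction_on' with
  | monomial m c =>
    rw [homogeneousComponent_of_mem (isHomogeneous_monomial c rfl), aeval_monomial]
    have e : (m.prod fun i n => (Polynomial.C (Y i) * Polynomial.X) ^ n : Polynomial R) =
        Polynomial.C (m.prod fun i n => Y i ^ n) * Polynomial.X ^ m.degree := by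
      simp only [mul_pow, Finsupp.prod_mul]
      congr 1
      · simp only [Finsupp.prod, map_prod, map_pow]
      · simp only [Finsupp.prod, Finset.prod_pow_eq_pow_sum]
        rfl
    rw [e, ← mul_assoc]
    have e2 : (algebraMap k (Polynomial R)) c = Polynomial.C (algebraMap k R c) := rfl
    rw [e2, ← map_mul, Polynomial.coeff_C_mul_X_pow]
    split_ifs with h
    · rw [aeval_monomial]
    · simp
  | add p q hp hq => simp only [map_add, Polynomial.coeff_add, hp, hq]

/-- the relations of a generic point are homogeneous -/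
lemma hom_comp {k ι E : Type} [Field k] [Fintype ι] [DecidableEq ι] [Field E] [Algebra k E]
    (hcoo : S_coo) {L : Submodule k (ι → k)} {B : Finset ι} {o : ι} {x w : ι → E}
    (hB : Base L B) (hoB : o ∈ B) (hG : Gen L o x w)
    (hz : AlgebraicIndependent k (fun i : {i // i ≠ o} => zf B x w i))
    (G : MvPolynomial ι k) (h0 : aeval (fun i => x i ^ 2 * w i) G = 0) (d : ℕ) :
    aeval (fun i => x i ^ 2 * w i) (homogeneousComponent d G) = 0 := by
  obtain ⟨c, hc⟩ := hcoo k ι L B hB
  obtain ⟨hcx, hcw⟩ := hc E x w
  have hxj := hcx.mp hG.hx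
  have hwi := hcw.mp hG.hw
  set X' : ι → MvPolynomial {i // i ≠ o} k := fun j => if h : j = o then 1 else X ⟨j, h⟩ with hX'
  set p : ι → MvPolynomial {i // i ≠ o} k := fun i =>
    if i ∈ B then X' i else ∑ j ∈ B, C (c i j) * X' j with hp
  set q : ι → MvPolynomial {i // i ≠ o} k := fun i =>
    if i ∈ B then - ∑ j ∈ Bᶜ, C (c j i) * X' j else X' i with hq
  set Y : ι → MvPolynomial {i // i ≠ o} k := fun i => p i ^ 2 * q i with hY
  set z : {i // i ≠ o} → E := fun i => zf B x w i with hzdef
  have aX : ∀ j, aeval z (X' j) = zf B x w j := by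
    intro j
    by_cases h : j = o
    · subst h
      simp only [hX', dif_pos, map_one]
      simp only [zf, if_pos hoB, hG.xo]
    · simp only [hX', dif_neg h, aeval_X, hzdef]
  have aXB : ∀ j ∈ B, aeval z (X' j) = x j := by
    intro j hj; rw [aX]; simp [zf, hj]
  have aXN : ∀ j ∈ Bᶜ, aeval z (X' j) = w j := by
    intro j hj; rw [aX]; simp [zf, Finset.mem_compl.mp hj]
  have ap : ∀ i, aeval z (p i) = x i := by
    intro i
    by_cases h : i ∈ B
    · simp only [hp, if_pos h]; exact aXB i h
    · simp only [hp, if_neg h]
      rw [hxj i h, map_sum]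
      apply Finset.sum_congr rfl
      intro j hj
      rw [map_mul, algHom_C, aXB j hj]
  have aq : ∀ i, aeval z (q i) = w i := by
    intro i
    by_cases h : i ∈ B
    · simp only [hq, if_pos h]
      rw [hwi i h, map_neg, map_sum]
      congr 1
      apply Finset.sum_congr rfl
      intro j hj
      rw [map_mul, algHom_C, aXN j hj]
    · simp only [hq, if_neg h]; exact aXN i (Finset.mem_compl.mpr h)
  have aY : ∀ i, aeval z (Y i) = x i ^ 2 * w i := by
    intro i; simp only [hY, map_mul, map_pow, ap, aq]
  have acomp : ∀ H : MvPolynomial ι k, aeval z (aeval Y H) = aeval (fun i => x i ^ 2 * w i) H := by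
    intro H
    have e : (aeval z).comp (aeval Y) = (aeval (fun i => x i ^ 2 * w i) : MvPolynomial ι k →ₐ[k] E) := by
      apply MvPolynomial.algHom_ext
      intro i
      rw [AlgHom.comp_apply, aeval_X, aeval_X, aY]
    rw [← e]; rfl
  have hinj : Function.Injective (aeval z : MvPolynomial {i // i ≠ o} k →ₐ[k] E) := hz
  have hY0 : aeval Y G = 0 := by
    apply hinj
    rw [acomp, h0, map_zero]
  -- the grading
  set Ψ : MvPolynomial {i // i ≠ o} k →ₐ[k] Polynomial (MvPolynomial {i // i ≠ o} k) :=
    aeval (fun i => if (i : ι) ∈ B then Polynomial.C (X i) else Polynomial.C (X i) * Polynomial.X)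
    with hΨ
  have ΨB : ∀ j ∈ B, Ψ (X' j) = Polynomial.C (X' j) := by
    intro j hj
    by_cases h : j = o
    · simp only [hX', dif_pos h, map_one]
    · simp only [hX', dif_neg h, hΨ, aeval_X, if_pos hj]
  have ΨN : ∀ j ∉ B, Ψ (X' j) = Polynomial.C (X' j) * Polynomial.X := by
    intro j hj
    have h : j ≠ o := fun h => hj (h ▸ hoB)
    simp only [hX', dif_neg h, hΨ, aeval_X, if_neg hj]
  have ΨC : ∀ a : k, Ψ (C a) = Polynomial.C (C a) := fun a => by rw [algHom_C]; rfl
  have Ψp : ∀ i, Ψ (p i) = Polynomial.C (p i) := by
    intro i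
    by_cases h : i ∈ B
    · simp only [hp, if_pos h]; exact ΨB i h
    · simp only [hp, if_neg h]
      rw [map_sum, map_sum]
      apply Finset.sum_congr rfl
      intro j hj
      rw [map_mul, map_mul, ΨC, ΨB j hj]
  have Ψq : ∀ i, Ψ (q i) = Polynomial.C (q i) * Polynomial.X := by
    intro i
    by_cases h : i ∈ B
    · simp only [hq, if_pos h]
      have e : Ψ (∑ j ∈ Bᶜ, C (c j i) * X' j) =
          Polynomial.C (∑ j ∈ Bᶜ, C (c j i) * X' j) * Polynomial.X := by
        rw [map_sum, map_sum, Finset.sum_mul]
        apply Finset.sum_congr rfl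
        intro j hj
        rw [map_mul, map_mul, ΨC, ΨN j (Finset.mem_compl.mp hj), mul_assoc]
      rw [map_neg, e, map_neg]
      ring
    · simp only [hq, if_neg h]; exact ΨN i h
  have ΨY : ∀ i, Ψ (Y i) = Polynomial.C (Y i) * Polynomial.X := by
    intro i; simp only [hY, map_mul, map_pow, Ψp, Ψq, mul_assoc]
  have Ψcomp : Ψ (aeval Y G) = aeval (fun i => Polynomial.C (Y i) * Polynomial.X) G := by
    have e : Ψ.comp (aeval Y) = (aeval (fun i => Polynomial.C (Y i) * Polynomial.X) :
        MvPolynomial ι k →ₐ[k] _) := by
      apply MvPolynomial.algHom_ext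
      intro i
      rw [AlgHom.comp_apply, aeval_X, aeval_X, ΨY]
    rw [← e]; rfl
  have h1 : aeval Y (homogeneousComponent d G) = 0 := by
    rw [← coeff_aeval_scale, ← Ψcomp, hY0, map_zero, Polynomial.coeff_zero]
  rw [← acomp, h1, map_zero]

/-- a polynomial that divides its homogeneous components is homogeneous -/
lemma hom_of_dvd {k ι : Type} [Field k] (F : MvPolynomial ι k)
    (hF : F ≠ 0) (h : F ∣ homogeneousComponent F.totalDegree F) :
    F.IsHomogeneous F.totalDegree := by
  set D := F.totalDegree with hD
  have hne : homogeneousComponent D F ≠ 0 := by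
    obtain ⟨m, hm, he⟩ := Finset.exists_mem_eq_sup F.support
      (MvPolynomial.support_nonempty.mpr hF) (fun m => m.sum fun _ e => e)
    have h1 : D = m.sum fun _ e => e := he
    intro h0
    have h2 := coeff_homogeneousComponent D F m
    rw [h0, coeff_zero, if_pos] at h2
    · exact (mem_support_iff.mp hm) h2.symm
    · rw [h1]; rfl
  obtain ⟨H, hH⟩ := h
  have hH0 : H ≠ 0 := by rintro rfl; rw [mul_zero] at hH; exact hne hH
  have h1 := (homogeneousComponent_isHomogeneous D F).totalDegree hne
  rw [hH, totalDegree_mul_of_isDomain hF hH0, ← hD] at h1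
  have h2 : H.totalDegree = 0 := by omega
  rw [totalDegree_eq_zero_iff_eq_C] at h2
  set c := coeff 0 H with hc
  have hc0 : c ≠ 0 := by
    intro h3; rw [h3, C_0] at h2; exact hH0 h2
  have h4 : F = C c⁻¹ * homogeneousComponent D F := by
    rw [hH, h2, mul_comm F, ← mul_assoc, ← C_mul, inv_mul_cancel₀ hc0, C_1, one_mul]
  rw [h4]
  exact (homogeneousComponent_isHomogeneous D F).C_mul _

theorem feq (htrd : S_trd) (hint : S_int) (hbas : S_bas) (hcoo : S_coo) (hzfa : S_zfa)
    (hbir : S_bir) : S_feq := by
  intro k ι E _ _ _ _ _ _ L o x w hG hgood hx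
  obtain ⟨B, hB, hoB⟩ := (hbas k ι L o (not_loop hG)).1
  obtain ⟨hz1, hz2⟩ := hzfa k ι E L B o x w hB hoB hG
  set y : ι → E := fun i => x i ^ 2 * w i with hy
  have hai : AlgebraicIndependent k (fun i : {i // i ≠ o} => y i) := hgood
  set A := Algebra.adjoin k (Set.range (fun i : {i // i ≠ o} => y i)) with hA
  set K := IntermediateField.adjoin k (Set.range (fun i : {i // i ≠ o} => y i)) with hK
  have hfin : FiniteDimensional K E := ((htrd k E _ _ _ _ hz2 hgood).2 rfl).2
  have hint' : IsIntegral A (y o) := by
    apply int_of_places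
    intro Γ _ v hv hle
    apply hint k ι E Γ L o x w v (by rw [hG.xo]; exact one_ne_zero) hG.hx hG.hw hv
    intro i hi
    exact hle _ ⟨⟨i, hi⟩, rfl⟩
  have hufd : UniqueFactorizationMonoid A :=
    MulEquiv.uniqueFactorizationMonoid hai.aevalEquiv.toMulEquiv inferInstance
  have hic : IsIntegrallyClosed A := inferInstance
  set m := minpoly A (y o) with hm
  set F : MvPolynomial ι k := (eqv o y hai).symm m with hF
  have heF : eqv o y hai F = m := AlgEquiv.apply_symm_apply _ _
  have hker : ∀ G : MvPolynomial ι k, aeval y G = 0 ↔ F ∣ G := by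
    intro G
    rw [← aeval_eqv o y hai, minpoly.isIntegrallyClosed_dvd_iff hint', ← hm, ← heF]
    exact map_dvd_iff (eqv o y hai)
  have hirr : Irreducible F := by
    have : Irreducible m := minpoly.irreducible hint'
    rw [← heF] at this
    exact (MulEquiv.irreducible_iff (eqv o y hai).toMulEquiv).mp this
  refine ⟨F, hirr, ?_, hker⟩
  have hhom : F.IsHomogeneous F.totalDegree := by
    apply hom_of_dvd F hirr.ne_zero
    rw [← hker]
    apply hom_comp hcoo hB hoB hG hz1
    rw [hker]
  -- the degree
  have hins : insert (y o) (Set.range (fun i : {i // i ≠ o} => y i)) = Set.range y := by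
    ext e
    constructor
    · rintro (rfl | ⟨i, rfl⟩)
      · exact ⟨o, rfl⟩
      · exact ⟨i, rfl⟩
    · rintro ⟨i, rfl⟩
      by_cases h : i = o
      · left; rw [h]
      · right; exact ⟨⟨i, h⟩, rfl⟩
  have hdeg : dg k o x w = m.natDegree := by
    apply fin_deg _ _ hint'
    rw [hins]
    exact hbir k ι E L o x w hG hgood hx
  have hco : coeff (Finsupp.single o (m.natDegree)) F = 1 := by
    apply coeff_eqv o y hai
    rw [heF]
    exact (minpoly.monic hint').coeff_natDegree
  have h1 := hhom (d := Finsupp.single o m.natDegree) (by rw [hco]; exact one_ne_zero)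
  rw [hdeg]
  have h2 : F.totalDegree = m.natDegree := by
    rw [← h1]
    simp [Finsupp.weight_single]
  rw [← h2]
  exact hhom

end Pool.Agent.Q198.RL
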